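import Mathlib
namespace Pool.Agent.Results.MP_ea54b6_co.Mod6
open Finset

/-- The statement P(c,m) of the problem, in the form of the frozen statement: every edge colouring of the
complete graph on the natural numbers that uses all c colours has an infinite vertex set whose edges
use exactly m colours. -/
def PHolds (c m : ℕ) : Prop :=
  ∀ f : ℕ → ℕ → Fin c,
    (∀ k : Fin c, ∃ i j : ℕ, i < j ∧ f i j = k) →
    ∃ S : Set ℕ, S.Infinite ∧
      ({x : Fin c | ∃ i ∈ S, ∃ j ∈ S, i < j ∧ f i j = x}).ncard = m

/-- the colours seen by a finite set of vertices together with the far part -/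
def seen (κ1 : ℕ → Finset ℕ) (κ2 : Finset ℕ → Finset ℕ) (A : Finset ℕ) : Finset (Finset ℕ) :=
  insert ∅ ((A.powersetCard 2).image κ2 ∪ A.image κ1)

theorem key (N c m : ℕ) (κ1 : ℕ → Finset ℕ) (κ2 : Finset ℕ → Finset ℕ)
    (hc : (seen κ1 κ2 (range N)).card = c)
    (hm : ∀ A ⊆ range N, (seen κ1 κ2 A).card ≠ m) : ¬ PHolds c m := by
  classical
  intro hP
  set full := seen κ1 κ2 (range N) with hfull
  have hmono : ∀ A ⊆ range N, seen κ1 κ2 A ⊆ full := by
    intro A hA
    refine insert_subset_insert _ (union_subset_union ?_ ?_)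
    · exact image_subset_image (powersetCard_mono hA)
    · exact image_subset_image hA
  have e : full ≃ Fin c := full.equivFinOfCardEq hc
  have hz : (∅ : Finset ℕ) ∈ full := mem_insert_self _ _
  let g : Finset ℕ → Fin c := fun k => if h : k ∈ full then e ⟨k, h⟩ else e ⟨∅, hz⟩
  have hginj : Set.InjOn g (full : Set (Finset ℕ)) := by
    intro a ha b hb hab
    have ha' : a ∈ full := ha
    have hb' : b ∈ full := hb
    simp only [g, dif_pos ha', dif_pos hb'] at hab
    have := e.injective hab
    simpa using this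
  let col : ℕ → ℕ → Finset ℕ := fun i j => if j < N then κ2 {i, j} else if i < N then κ1 i else ∅
  have hcolA : ∀ S : Set ℕ, S.Infinite → ∀ A : Finset ℕ, (∀ x, x ∈ A ↔ x < N ∧ x ∈ S) →
      {x : Fin c | ∃ i ∈ S, ∃ j ∈ S, i < j ∧ g (col i j) = x} =
        g '' (seen κ1 κ2 A : Set (Finset ℕ)) := by
    intro S hS A hA
    ext x
    simp only [Set.mem_image, Set.mem_ofPred_eq]
    constructor
    · rintro ⟨i, hi, j, hj, hij, rfl⟩
      refine ⟨col i j, ?_, rfl⟩
      simp only [seen, coe_insert, coe_union, coe_image, Set.mem_insert_iff, Set.mem_union, Set.mem_image,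
        mem_coe, mem_powersetCard, col]
      by_cases h1 : j < N
      · right; left
        refine ⟨{i, j}, ⟨?_, card_pair (by omega)⟩, by simp [h1]⟩
        intro y hy
        simp only [mem_insert, mem_singleton] at hy
        rcases hy with rfl | rfl
        · exact (hA _).mpr ⟨by omega, hi⟩
        · exact (hA _).mpr ⟨h1, hj⟩
      · by_cases h2 : i < N
        · right; right
          exact ⟨i, (hA _).mpr ⟨h2, hi⟩, by simp [h1, h2]⟩
        · left; simp [h1, h2]
    · rintro ⟨k, hk, rfl⟩
      obtain ⟨u, huS, huN⟩ := hS.exists_gt N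
      obtain ⟨v, hvS, hvu⟩ := hS.exists_gt u
      simp only [seen, coe_insert, coe_union, coe_image, Set.mem_insert_iff, Set.mem_union, Set.mem_image,
        mem_coe, mem_powersetCard] at hk
      rcases hk with rfl | ⟨e2, ⟨he, hcard⟩, rfl⟩ | ⟨i, hi, rfl⟩
      · refine ⟨u, huS, v, hvS, hvu, ?_⟩
        have : col u v = ∅ := by
          simp only [col]; rw [if_neg (by omega), if_neg (by omega)]
        rw [this]
      · obtain ⟨a, b, hab, rfl⟩ := card_eq_two.mp hcard
        have ha := he (mem_insert_self a {b})
        have hb := he (mem_insert_of_mem (mem_singleton_self b))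
        rw [hA] at ha hb
        rcases lt_or_gt_of_ne hab with h | h
        · refine ⟨a, ha.2, b, hb.2, h, ?_⟩
          have : col a b = κ2 {a, b} := by simp [col, hb.1]
          rw [this]
        · refine ⟨b, hb.2, a, ha.2, h, ?_⟩
          have : col b a = κ2 {a, b} := by simp [col, ha.1, pair_comm]
          rw [this]
      · rw [hA] at hi
        refine ⟨i, hi.2, u, huS, by omega, ?_⟩
        have : col i u = κ1 i := by
          simp only [col]; rw [if_neg (by omega), if_pos hi.1]
        rw [this]
  have hsurj : ∀ k : Fin c, ∃ i j : ℕ, i < j ∧ g (col i j) = k := by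
    intro k
    have h1 := hcolA Set.univ Set.infinite_univ (range N) (by simp)
    have h3 : k ∈ g '' (seen κ1 κ2 (range N) : Set (Finset ℕ)) := by
      refine ⟨(e.symm k : Finset ℕ), (e.symm k).2, ?_⟩
      simp [g]
    rw [← h1] at h3
    obtain ⟨i, -, j, -, hij, h⟩ := h3
    exact ⟨i, j, hij, h⟩
  obtain ⟨S, hS, hcard⟩ := hP (fun i j => g (col i j)) hsurj
  rw [hcolA S hS ((range N).filter (· ∈ S)) (by simp), Set.InjOn.ncard_image (hginj.mono (by
    exact_mod_cast hmono _ (filter_subset _ _))), Set.ncard_coe_finset] at hcard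
  exact hm _ (filter_subset _ _) hcard

theorem count_gen {α β : Type*} [DecidableEq α] [DecidableEq β] (Z : Finset β) (P R : Finset α)
    (κ : α → β) (hR : R ⊆ P) (h1 : ∀ x ∈ R, κ x ∈ Z ∪ (P \ R).image κ)
    (h2 : ∀ x ∈ P \ R, κ x ∉ Z) (h3 : Set.InjOn κ ((P \ R : Finset α) : Set α)) :
    (Z ∪ P.image κ).card + R.card = Z.card + P.card := by
  have e : Z ∪ P.image κ = Z ∪ (P \ R).image κ := by
    ext y
    simp only [mem_union, mem_image]
    constructor
    · rintro (h | ⟨x, hx, rfl⟩)
      · exact Or.inl h
      · by_cases hxR : x ∈ R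
        · have := h1 x hxR
          simpa only [mem_union, mem_image] using this
        · exact Or.inr ⟨x, mem_sdiff.mpr ⟨hx, hxR⟩, rfl⟩
    · rintro (h | ⟨x, hx, rfl⟩)
      · exact Or.inl h
      · exact Or.inr ⟨x, (mem_sdiff.mp hx).1, rfl⟩
  rw [e, card_union_of_disjoint, card_image_of_injOn h3, card_sdiff_of_subset hR]
  · have := card_le_card hR
    omega
  · rw [disjoint_left]
    intro y hy hy'
    obtain ⟨x, hx, rfl⟩ := mem_image.mp hy'
    exact h2 x hx hy

/-- root colours `κ`; `Red A` is the set of vertices of `A` whose root colour is repeated inside `A` -/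
structure Hub (N0 : ℕ) (κ : ℕ → Finset ℕ) (Red : Finset ℕ → Finset ℕ) : Prop where
  sub : ∀ A ⊆ range N0, Red A ⊆ A
  red : ∀ A ⊆ range N0, ∀ x ∈ Red A, κ x = ∅ ∨ (κ x ⊆ A ∧ (κ x).card = 2)
  nonred : ∀ A ⊆ range N0, ∀ x ∈ A, x ∉ Red A → κ x ≠ ∅ ∧ ¬ (κ x ⊆ A ∧ (κ x).card = 2)
  inj : ∀ A ⊆ range N0, ∀ x ∈ A, x ∉ Red A → ∀ y ∈ A, y ∉ Red A → κ x = κ y → x = y
  small : ∀ x, (κ x).card ≤ 2

theorem hub_count {N0 : ℕ} {κ : ℕ → Finset ℕ} {Red : Finset ℕ → Finset ℕ} (h : Hub N0 κ Red)
    {A : Finset ℕ} (hA : A ⊆ range N0) :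
    (seen κ id A).card + (Red A).card = 1 + A.card.choose 2 + A.card := by
  have e : seen κ id A = insert ∅ (A.powersetCard 2) ∪ A.image κ := by
    simp [seen, insert_union]
  have hZ : (insert ∅ (A.powersetCard 2)).card = 1 + A.card.choose 2 := by
    rw [card_insert_of_notMem, card_powersetCard]
    · omega
    · simp [mem_powersetCard]
  rw [e, ← hZ]
  apply count_gen _ _ _ _ (h.sub A hA)
  · intro x hx
    rcases h.red A hA x hx with h0 | ⟨h1, h2⟩
    · rw [h0]; simp
    · apply mem_union_left
      apply mem_insert_of_mem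
      exact mem_powersetCard.mpr ⟨h1, h2⟩
  · intro x hx hx'
    obtain ⟨hxA, hxR⟩ := mem_sdiff.mp hx
    obtain ⟨h1, h2⟩ := h.nonred A hA x hxA hxR
    rcases mem_insert.mp hx' with h3 | h3
    · exact h1 h3
    · exact h2 (mem_powersetCard.mp h3)
  · intro x hx y hy hxy
    obtain ⟨hxA, hxR⟩ := mem_sdiff.mp (mem_coe.mp hx)
    obtain ⟨hyA, hyR⟩ := mem_sdiff.mp (mem_coe.mp hy)
    exact h.inj A hA x hxA hxR y hyA hyR hxy

theorem choose_two_succ (a : ℕ) : (a + 1).choose 2 = a.choose 2 + a := by
  have h := Nat.choose_succ_succ' a 1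
  rw [Nat.choose_one_right] at h
  have h2 : (1 + 1 : ℕ) = 2 := rfl
  rw [h2] at h
  omega

theorem choose_two_mono {a b : ℕ} (h : a ≤ b) : a.choose 2 ≤ b.choose 2 := Nat.choose_le_choose 2 h

theorem opt1 {N0 : ℕ} {κ : ℕ → Finset ℕ} {Red : Finset ℕ → Finset ℕ} (h : Hub N0 κ Red)
    (c m n r δ : ℕ) (hr : (Red (range N0)).card = r) (hc : c + r = (N0 + 1).choose 2 + 1)
    (hm : m + δ = n.choose 2 + 1) (hδ : 1 ≤ δ) (hδn : δ + 2 ≤ n)
    (hD : ∀ A ⊆ range N0, A.card + 1 = n → (Red A).card ≠ δ) : ¬ PHolds c m := by
  apply key N0 c m κ id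
  · have h1 := hub_count h (subset_refl (range N0))
    rw [card_range, hr] at h1
    rw [choose_two_succ] at hc
    omega
  · intro A hA hcard
    have h1 := hub_count h hA
    have h2 : (Red A).card ≤ A.card := card_le_card (h.sub A hA)
    rcases lt_trichotomy (A.card + 1) n with h3 | h3 | h3
    · have h4 := choose_two_mono (show A.card + 1 ≤ n - 1 by omega)
      have h5 := choose_two_succ (n - 1)
      rw [show n - 1 + 1 = n by omega] at h5
      rw [choose_two_succ] at h4
      omega
    · apply hD A hA h3
      have h4 := choose_two_succ A.card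
      rw [h3] at h4
      omega
    · have h4 := choose_two_mono (show n ≤ A.card by omega)
      omega

theorem opt2 {N0 : ℕ} {κ : ℕ → Finset ℕ} {Red : Finset ℕ → Finset ℕ} (h : Hub N0 κ Red)
    (c m n r δ : ℕ) (hr : (Red (range N0)).card = r + 1) (hc : c + r = (N0 + 1).choose 2 + 1)
    (hm : m + δ = n.choose 2 + 1) (hδn : δ + 3 ≤ n)
    (hD : ∀ A ⊆ range N0, A.card + 1 = n → (Red A).card ≠ δ + 1) : ¬ PHolds c m := by
  set κ2 : Finset ℕ → Finset ℕ := fun e => if N0 ∈ e then κ ((e.erase N0).sup id) else e with hκ2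
  set C : Finset ℕ := {0, 1, 2} with hC
  have hC3 : C.card = 3 := by rw [hC]; decide
  have hκC : ∀ x, κ x ≠ C := by
    intro x hx
    have := h.small x
    rw [hx] at this
    omega
  -- with the hub
  have hin : ∀ A ⊆ range N0, (seen (fun _ => C) κ2 (insert N0 A)).card = (seen κ id A).card + 1 := by
    intro A hA
    have hN : N0 ∉ A := fun hh => by simpa using hA hh
    have e : seen (fun _ => C) κ2 (insert N0 A) = insert C (seen κ id A) := by
      ext y
      simp only [seen, mem_insert, mem_union, mem_image, mem_powersetCard]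
      constructor
      · rintro (hy | ⟨e, ⟨he, hcard⟩, rfl⟩ | ⟨x, -, rfl⟩)
        · exact Or.inr (Or.inl hy)
        · right; right
          by_cases hNe : N0 ∈ e
          · right
            have h1 : (e.erase N0).card = 1 := by rw [card_erase_of_mem hNe, hcard]
            obtain ⟨x, hx⟩ := card_eq_one.mp h1
            have hxe : x ∈ e.erase N0 := by rw [hx]; simp
            have hx2 := he (mem_of_mem_erase hxe)
            refine ⟨x, ?_, ?_⟩
            · rcases mem_insert.mp hx2 with h3 | h3
              · exact absurd h3 (ne_of_mem_erase hxe)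
              · exact h3
            · simp [hκ2, hNe, hx]
          · left
            refine ⟨e, ⟨?_, hcard⟩, by simp [hκ2, hNe]⟩
            intro x hx
            rcases mem_insert.mp (he hx) with h3 | h3
            · rw [h3] at hx; exact absurd hx hNe
            · exact h3
        · exact Or.inl rfl
      · rintro (hy | hy | ⟨e, ⟨he, hcard⟩, rfl⟩ | ⟨x, hx, rfl⟩)
        · right; right; exact ⟨N0, Or.inl rfl, hy.symm⟩
        · exact Or.inl hy
        · right; left
          refine ⟨e, ⟨fun x hx => mem_insert_of_mem (he hx), hcard⟩, ?_⟩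
          have : N0 ∉ e := fun hh => hN (he hh)
          simp [hκ2, this]
        · right; left
          have hxN : x ≠ N0 := fun hh => hN (hh ▸ hx)
          refine ⟨{N0, x}, ⟨?_, card_pair hxN.symm⟩, ?_⟩
          · intro z hz
            rcases mem_insert.mp hz with h3 | h3
            · rw [h3]; exact mem_insert_self _ _
            · rw [mem_singleton.mp h3]; exact mem_insert_of_mem hx
          · have : ({N0, x} : Finset ℕ).erase N0 = {x} := by
              rw [erase_insert]; simpa using hxN.symm
            simp [hκ2, this]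
    rw [e, card_insert_of_notMem]
    simp only [seen, mem_insert, mem_union, mem_image, mem_powersetCard, not_or]
    refine ⟨?_, ?_, ?_⟩
    · intro hh; rw [hh] at hC3; simp at hC3
    · rintro ⟨e, ⟨-, hcard⟩, hh⟩
      simp only [id] at hh
      rw [hh] at hcard; omega
    · rintro ⟨x, -, hx⟩; exact hκC x hx
  have hout : ∀ A ⊆ range N0, A.Nonempty →
      (seen (fun _ => C) κ2 A).card = 2 + A.card.choose 2 := by
    intro A hA hne
    have hN : N0 ∉ A := fun hh => by simpa using hA hh
    have e : seen (fun _ => C) κ2 A = insert C (insert ∅ (A.powersetCard 2)) := by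
      ext y
      simp only [seen, mem_insert, mem_union, mem_image]
      constructor
      · rintro (hy | ⟨e, he, rfl⟩ | ⟨x, -, rfl⟩)
        · exact Or.inr (Or.inl hy)
        · right; right
          have : N0 ∉ e := fun hh => hN ((mem_powersetCard.mp he).1 hh)
          simpa [hκ2, this] using he
        · exact Or.inl rfl
      · rintro (hy | hy | he)
        · right; right; exact ⟨_, hne.choose_spec, hy.symm⟩
        · exact Or.inl hy
        · right; left
          refine ⟨y, he, ?_⟩
          have : N0 ∉ y := fun hh => hN ((mem_powersetCard.mp he).1 hh)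
          simp [hκ2, this]
    rw [e, card_insert_of_notMem, card_insert_of_notMem, card_powersetCard]
    · omega
    · simp [mem_powersetCard]
    · simp only [mem_insert, mem_powersetCard, not_or]
      refine ⟨?_, ?_⟩
      · intro hh; rw [hh] at hC3; simp at hC3
      · rintro ⟨-, hh⟩; omega
  have hrange : range (N0 + 1) = insert N0 (range N0) := range_add_one
  have h5 := choose_two_succ (n - 1)
  rw [show n - 1 + 1 = n by omega] at h5
  apply key (N0 + 1) c m (fun _ => C) κ2
  · rw [hrange, hin _ (subset_refl _)]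
    have h1 := hub_count h (subset_refl (range N0))
    rw [card_range, hr] at h1
    rw [choose_two_succ] at hc
    omega
  · intro A hA hcard
    by_cases hN : N0 ∈ A
    · set A' := A.erase N0 with hA'
      have hAA : insert N0 A' = A := insert_erase hN
      have hA'2 : A' ⊆ range N0 := by
        intro x hx
        have h1 := hA (mem_of_mem_erase hx)
        have h2 := ne_of_mem_erase hx
        rw [mem_range] at h1 ⊢
        omega
      rw [← hAA, hin A' hA'2] at hcard
      have h1 := hub_count h hA'2
      have h2 : (Red A').card ≤ A'.card := card_le_card (h.sub A' hA'2)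
      rcases lt_trichotomy (A'.card + 1) n with h3 | h3 | h3
      · have h4 := choose_two_mono (show A'.card + 1 ≤ n - 1 by omega)
        rw [choose_two_succ] at h4
        omega
      · apply hD A' hA'2 h3
        have h4 := choose_two_succ A'.card
        rw [h3] at h4
        omega
      · have h4 := choose_two_mono (show n ≤ A'.card by omega)
        omega
    · have hA2 : A ⊆ range N0 := by
        intro x hx
        have h1 := hA hx
        have h2 : x ≠ N0 := fun hh => hN (hh ▸ hx)
        rw [mem_range] at h1 ⊢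
        omega
      rcases A.eq_empty_or_nonempty with h0 | hne
      · subst h0
        have h7 : powersetCard 2 (∅ : Finset ℕ) = ∅ := by
          rw [powersetCard_eq_empty]; simp
        have h8 : (seen (fun _ => C) κ2 ∅).card = 1 := by simp [seen, h7]
        omega
      · rw [hout A hA2 hne] at hcard
        rcases le_or_gt n A.card with h3 | h3
        · have h4 := choose_two_mono h3
          omega
        · have h4 := choose_two_mono (show A.card ≤ n - 1 by omega)
          omega

/-! star -/
theorem hub_star (N0 r : ℕ) :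
    Hub N0 (fun x => if x < r then ∅ else {x}) (fun A => A.filter (· < r)) where
  sub := fun A _ => filter_subset _ _
  red := by
    intro A _ x hx
    left
    rw [if_pos (mem_filter.mp hx).2]
  nonred := by
    intro A _ x hx hx'
    have h : ¬ x < r := fun hh => hx' (mem_filter.mpr ⟨hx, hh⟩)
    rw [if_neg h]
    exact ⟨by simp, by simp⟩
  inj := by
    intro A _ x hx hx' y hy hy' hxy
    have h : ¬ x < r := fun hh => hx' (mem_filter.mpr ⟨hx, hh⟩)
    have h' : ¬ y < r := fun hh => hy' (mem_filter.mpr ⟨hy, hh⟩)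
    rw [if_neg h, if_neg h'] at hxy
    simpa using hxy
  small := by
    intro x
    split_ifs <;> simp

/-! windows -/
def wnd (N0 x : ℕ) : Finset ℕ := {x + 1, if x + 2 < N0 then x + 2 else 0}

theorem card_wnd (N0 x : ℕ) : (wnd N0 x).card = 2 := by
  unfold wnd
  apply card_pair
  split_ifs <;> omega

theorem wnd_inj {N0 x y : ℕ} (hN : 3 ≤ N0) (hx : x + 1 < N0) (hy : y + 1 < N0)
    (h : wnd N0 x = wnd N0 y) : x = y := by
  have h1 : x + 1 ∈ wnd N0 y := by rw [← h]; simp [wnd]
  have h2 : y + 1 ∈ wnd N0 x := by rw [h]; simp [wnd]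
  simp only [wnd, mem_insert, mem_singleton] at h1 h2
  by_cases a : x + 2 < N0 <;> by_cases b : y + 2 < N0
  · rw [if_pos b] at h1
    rw [if_pos a] at h2
    omega
  · rw [if_neg b] at h1
    rw [if_pos a] at h2
    omega
  · rw [if_pos b] at h1
    rw [if_neg a] at h2
    omega
  · rw [if_neg b] at h1
    rw [if_neg a] at h2
    omega

theorem hub_wnd (N0 r : ℕ) (hN : 3 ≤ N0) (hr : r < N0) :
    Hub N0 (fun x => if x < r then wnd N0 x else {x})
      (fun A => A.filter (fun x => x < r ∧ wnd N0 x ⊆ A)) where
  sub := fun A _ => filter_subset _ _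
  red := by
    intro A _ x hx
    obtain ⟨_, h1, h2⟩ := mem_filter.mp hx
    right
    rw [if_pos h1]
    exact ⟨h2, card_wnd _ _⟩
  nonred := by
    intro A _ x hx hx'
    by_cases h : x < r
    · rw [if_pos h]
      constructor
      · intro h0
        have := card_wnd N0 x
        rw [h0] at this; simp at this
      · rintro ⟨h1, _⟩
        exact hx' (mem_filter.mpr ⟨hx, h, h1⟩)
    · rw [if_neg h]
      exact ⟨by simp, by simp⟩
  inj := by
    intro A _ x hx hx' y hy hy' hxy
    by_cases h : x < r <;> by_cases h' : y < r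
    · rw [if_pos h, if_pos h'] at hxy
      exact wnd_inj hN (by omega) (by omega) hxy
    · rw [if_pos h, if_neg h'] at hxy
      have := card_wnd N0 x
      rw [hxy] at this; simp at this
    · rw [if_neg h, if_pos h'] at hxy
      have := card_wnd N0 y
      rw [← hxy] at this; simp at this
    · rw [if_neg h, if_neg h'] at hxy
      simpa using hxy
  small := by
    intro x
    split_ifs
    · rw [card_wnd]
    · simp

theorem wnd_count (N0 r : ℕ) (A : Finset ℕ) (hA : A ⊆ range N0)
    (h2 : 2 ≤ A.card) (hlt : A.card < N0) :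
    (A.filter (fun x => x < r ∧ wnd N0 x ⊆ A)).card + 2 ≤ A.card := by
  have hne : A.Nonempty := card_pos.mp (by omega)
  set t := A.max' hne with ht
  have htA : t ∈ A := max'_mem _ _
  have hmax : ∀ x ∈ A, x ≤ t := fun x hx => le_max' _ _ hx
  have htN : t < N0 := mem_range.mp (hA htA)
  have hmem : ∀ x, wnd N0 x ⊆ A → x + 1 ∈ A := fun x hx => hx (by simp [wnd])
  -- a second non red vertex
  obtain ⟨u, huA, hut, hu⟩ : ∃ u ∈ A, u ≠ t ∧ ¬ (u < r ∧ wnd N0 u ⊆ A) := by
    by_contra hcon
    push Not at hcon
    have hstep : ∀ x ∈ A, x ≠ t → x + 1 ∈ A := fun x hx hxt => hmem x (hcon x hx hxt).2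
    -- take the element t - 1
    obtain ⟨a, haA, hat⟩ : ∃ a ∈ A, a ≠ t := by
      by_contra hc
      push Not at hc
      have : A ⊆ {t} := fun x hx => mem_singleton.mpr (hc x hx)
      have := card_le_card this
      simp at this; omega
    have hrun : ∀ k, a + k ≤ t → a + k ∈ A := by
      intro k
      induction k with
      | zero => intro _; exact haA
      | succ k ih =>
        intro hk
        have := hstep (a + k) (ih (by omega)) (by omega)
        simpa [add_assoc] using this
    have hat' : a < t := lt_of_le_of_ne (hmax a haA) hat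
    have h3 : t - 1 ∈ A := by
      have := hrun (t - 1 - a) (by omega)
      rwa [show a + (t - 1 - a) = t - 1 by omega] at this
    have h4 := hcon (t - 1) h3 (by omega)
    by_cases h5 : t + 1 < N0
    · have h6 : t + 1 ∈ wnd N0 (t - 1) := by
        simp only [wnd, mem_insert, mem_singleton]
        right
        rw [if_pos (by omega)]; omega
      have := hmax _ (h4.2 h6)
      omega
    · have h6 : 0 ∈ wnd N0 (t - 1) := by
        simp only [wnd, mem_insert, mem_singleton]
        right
        rw [if_neg (by omega)]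
      have h0 : 0 ∈ A := h4.2 h6
      have hall : ∀ k, k ≤ t → k ∈ A := by
        intro k
        induction k with
        | zero => intro _; exact h0
        | succ k ih =>
          intro hk
          exact hstep k (ih (by omega)) (by omega)
      have : range N0 ⊆ A := by
        intro x hx
        rw [mem_range] at hx
        exact hall x (by omega)
      have := card_le_card this
      rw [card_range] at this
      omega
  have htn : ¬ (t < r ∧ wnd N0 t ⊆ A) := by
    rintro ⟨_, h⟩
    have := hmax _ (hmem t h)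
    omega
  have hsub : A.filter (fun x => x < r ∧ wnd N0 x ⊆ A) ⊆ (A.erase t).erase u := by
    intro x hx
    obtain ⟨hxA, hx2⟩ := mem_filter.mp hx
    refine mem_erase.mpr ⟨?_, mem_erase.mpr ⟨?_, hxA⟩⟩
    · rintro rfl; exact hu hx2
    · rintro rfl; exact htn hx2
  have h7 := card_le_card hsub
  rw [card_erase_of_mem (mem_erase.mpr ⟨hut, huA⟩), card_erase_of_mem htA] at h7
  omega

/-! blocks -/
def blk (g q e x : ℕ) : Finset ℕ :=
  if x < g * q then Ico (g * (x / g)) (g * (x / g) + g) else Ico (g * q) (g * q + e)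

def pet (g q e x : ℕ) : Finset ℕ :=
  if x < g * q + e then
    (if (blk g q e x).card = 3 then (blk g q e x).erase x
      else if (blk g q e x).card = 2 then blk g q e x else ∅)
  else {x}

theorem mem_blk {g q e x : ℕ} (hg : 0 < g) (hx : x < g * q + e) : x ∈ blk g q e x := by
  unfold blk
  split_ifs with h
  · rw [mem_Ico]
    have h1 := Nat.div_add_mod x g
    have h2 := Nat.mod_lt x hg
    omega
  · rw [mem_Ico]; omega

theorem blk_eq {g q e x y : ℕ} (_hg : 0 < g) (_hx : x < g * q + e) (hy : y ∈ blk g q e x) :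
    y < g * q + e ∧ blk g q e y = blk g q e x := by
  unfold blk at hy ⊢
  split_ifs at hy with h
  · rw [mem_Ico] at hy
    have h1 : y / g = x / g := by
      apply Nat.div_eq_of_lt_le
      · rw [mul_comm]; exact hy.1
      · have : (x / g + 1) * g = g * (x / g) + g := by ring
        rw [this]; exact hy.2
    have h2 : y < g * q := by
      have h3 : x / g < q := Nat.div_lt_of_lt_mul h
      have h4 : g * (x / g) + g ≤ g * q := by
        have : g * (x / g + 1) ≤ g * q := Nat.mul_le_mul_left _ h3
        linarith [this, Nat.mul_add g (x / g) 1]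
      omega
    rw [if_pos h2, if_pos h, h1]
    exact ⟨by omega, rfl⟩
  · rw [mem_Ico] at hy
    rw [if_neg (by omega), if_neg h]
    exact ⟨by omega, rfl⟩

theorem card_blk {g q e x : ℕ} (hg1 : 2 ≤ g) (hg2 : g ≤ 3) (he : e ≤ 3) (hx : x < g * q + e) :
    1 ≤ (blk g q e x).card ∧ (blk g q e x).card ≤ 3 := by
  unfold blk
  split_ifs with h <;> simp <;> omega

theorem hub_pet (N0 g q e : ℕ) (hg1 : 2 ≤ g) (hg2 : g ≤ 3) (he : e ≤ 3) :
    Hub N0 (pet g q e) (fun A => A.filter (fun x => x < g * q + e ∧ blk g q e x ⊆ A)) where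
  sub := fun A _ => filter_subset _ _
  red := by
    intro A _ x hx
    obtain ⟨hxA, hx1, hx2⟩ := mem_filter.mp hx
    have hm := mem_blk (by omega : 0 < g) hx1
    unfold pet
    rw [if_pos hx1]
    split_ifs with h3 h4
    · right
      exact ⟨(erase_subset _ _).trans hx2, by rw [card_erase_of_mem hm, h3]⟩
    · right; exact ⟨hx2, h4⟩
    · left; rfl
  nonred := by
    intro A _ x hxA hx'
    unfold pet
    by_cases hx1 : x < g * q + e
    · have hm := mem_blk (by omega : 0 < g) hx1
      have hnot : ¬ blk g q e x ⊆ A := fun hh => hx' (mem_filter.mpr ⟨hxA, hx1, hh⟩)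
      rw [if_pos hx1]
      split_ifs with h3 h4
      · constructor
        · intro h0
          have := card_erase_of_mem hm
          rw [h0, h3] at this; simp at this
        · rintro ⟨h5, _⟩
          apply hnot
          intro y hy
          by_cases hyx : y = x
          · rw [hyx]; exact hxA
          · exact h5 (mem_erase.mpr ⟨hyx, hy⟩)
      · constructor
        · intro h0; rw [h0] at h4; simp at h4
        · rintro ⟨h5, _⟩; exact hnot h5
      · exfalso
        have h5 := card_blk hg1 hg2 he hx1
        have h6 : (blk g q e x).card = 1 := by omega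
        obtain ⟨z, hz⟩ := card_eq_one.mp h6
        rw [hz, mem_singleton] at hm
        rw [hz, ← hm] at hnot
        exact hnot (by simpa using hxA)
    · rw [if_neg hx1]
      exact ⟨by simp, by simp⟩
  inj := by
    intro A _ x hxA hx' y hyA hy' hxy
    have main : ∀ x y : ℕ, x ∈ A → y ∈ A →
        x < g * q + e → y < g * q + e → ¬ blk g q e x ⊆ A → ¬ blk g q e y ⊆ A →
        pet g q e x = pet g q e y → x = y := by
      intro x y hxA hyA hx1 hy1 hxn hyn hxy
      have hmx := mem_blk (by omega : 0 < g) hx1
      have hmy := mem_blk (by omega : 0 < g) hy1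
      have key1 : ∀ x, x ∈ A → x < g * q + e → ¬ blk g q e x ⊆ A →
          2 ≤ (blk g q e x).card ∧ (blk g q e x).card ≤ 3 ∧ (pet g q e x).card = 2 ∧
            pet g q e x ⊆ blk g q e x := by
        intro x hxA hx1 hnot
        have hm := mem_blk (by omega : 0 < g) hx1
        have h5 := card_blk hg1 hg2 he hx1
        have h7 : (blk g q e x).card ≠ 1 := by
          intro h6
          obtain ⟨z, hz⟩ := card_eq_one.mp h6
          rw [hz, mem_singleton] at hm
          rw [hz, ← hm] at hnot
          exact hnot (by simpa using hxA)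
        refine ⟨by omega, h5.2, ?_, ?_⟩
        · unfold pet
          rw [if_pos hx1]
          split_ifs with h3 h4
          · rw [card_erase_of_mem hm, h3]
          · exact h4
          · omega
        · unfold pet
          rw [if_pos hx1]
          split_ifs with h3 h4
          · exact erase_subset _ _
          · exact subset_refl _
          · exact empty_subset _
      obtain ⟨kx1, kx2, kx3, kx4⟩ := key1 x hxA hx1 hxn
      obtain ⟨ky1, ky2, ky3, ky4⟩ := key1 y hyA hy1 hyn
      obtain ⟨z, hz⟩ : (pet g q e x).Nonempty := card_pos.mp (by omega)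
      have e1 := (blk_eq (by omega : 0 < g) hx1 (kx4 hz)).2
      have e2 := (blk_eq (by omega : 0 < g) hy1 (ky4 (hxy ▸ hz))).2
      have e3 : blk g q e x = blk g q e y := e1.symm.trans e2
      by_contra hne
      by_cases h3 : (blk g q e x).card = 3
      · have h3' : (blk g q e y).card = 3 := by rw [← e3]; exact h3
        unfold pet at hxy
        rw [if_pos hx1, if_pos hy1, if_pos h3, if_pos h3'] at hxy
        have : y ∈ (blk g q e x).erase x := mem_erase.mpr ⟨fun hh => hne hh.symm, e3 ▸ hmy⟩
        rw [hxy] at this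
        exact (ne_of_mem_erase this) rfl
      · apply hxn
        have h4 : ({x, y} : Finset ℕ) ⊆ blk g q e x := by
          intro w hw
          rcases mem_insert.mp hw with h | h
          · rw [h]; exact hmx
          · rw [mem_singleton.mp h]; exact e3 ▸ hmy
        have h5 : ({x, y} : Finset ℕ) = blk g q e x := by
          apply eq_of_subset_of_card_le h4
          rw [card_pair hne]; omega
        rw [← h5]
        intro w hw
        rcases mem_insert.mp hw with h | h
        · rw [h]; exact hxA
        · rw [mem_singleton.mp h]; exact hyA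
    have hcard2 : ∀ x, x ∈ A → x < g * q + e → ¬ blk g q e x ⊆ A → ∀ z : ℕ, pet g q e x ≠ {z} := by
      intro x hxA hx1 hnot z hz
      have hm := mem_blk (by omega : 0 < g) hx1
      have h5 := card_blk hg1 hg2 he hx1
      have h7 : (blk g q e x).card ≠ 1 := by
        intro h6
        obtain ⟨z, hz⟩ := card_eq_one.mp h6
        rw [hz, mem_singleton] at hm
        rw [hz, ← hm] at hnot
        exact hnot (by simpa using hxA)
      have h8 : (pet g q e x).card = 2 := by
        unfold pet
        rw [if_pos hx1]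
        split_ifs with h3 h4
        · rw [card_erase_of_mem hm, h3]
        · exact h4
        · omega
      rw [hz] at h8; simp at h8
    by_cases hx1 : x < g * q + e <;> by_cases hy1 : y < g * q + e
    · exact main x y hxA hyA hx1 hy1 (fun hh => hx' (mem_filter.mpr ⟨hxA, hx1, hh⟩))
        (fun hh => hy' (mem_filter.mpr ⟨hyA, hy1, hh⟩)) hxy
    · exfalso
      apply hcard2 x hxA hx1 (fun hh => hx' (mem_filter.mpr ⟨hxA, hx1, hh⟩)) y
      rw [hxy]; unfold pet; rw [if_neg hy1]
    · exfalso
      apply hcard2 y hyA hy1 (fun hh => hy' (mem_filter.mpr ⟨hyA, hy1, hh⟩)) x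
      rw [← hxy]; unfold pet; rw [if_neg hx1]
    · unfold pet at hxy
      rw [if_neg hx1, if_neg hy1] at hxy
      simpa using hxy
  small := by
    intro x
    unfold pet
    split_ifs with h1 h2 h3
    · rw [card_erase_of_mem (mem_blk (by omega) h1), h2]
    · rw [h3]
    · simp
    · simp

theorem pet_total (N0 g q e : ℕ) (hg : 0 < g) (hR : g * q + e ≤ N0) :
    ((range N0).filter (fun x => x < g * q + e ∧ blk g q e x ⊆ range N0)).card = g * q + e := by
  have : (range N0).filter (fun x => x < g * q + e ∧ blk g q e x ⊆ range N0) = range (g * q + e) := by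
    ext x
    simp only [mem_filter, mem_range]
    constructor
    · rintro ⟨_, h, _⟩; exact h
    · intro h
      refine ⟨by omega, h, ?_⟩
      intro y hy
      have := (blk_eq hg h hy).1
      rw [mem_range]; omega
  rw [this, card_range]

theorem pet_count (g q e : ℕ) (hg : 0 < g) (A : Finset ℕ) :
    ∃ i j : ℕ, j ≤ 1 ∧ (A.filter (fun x => x < g * q + e ∧ blk g q e x ⊆ A)).card = g * i + e * j := by
  classical
  set F := A.filter (fun x => x < g * q + e ∧ blk g q e x ⊆ A) with hF
  set I := (range q).filter (fun i => Ico (g * i) (g * i + g) ⊆ A) with hI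
  have hsplit : (F.filter (· < g * q)).card + (F.filter (¬ · < g * q)).card = F.card :=
    card_filter_add_card_filter_not _
  have h1 : F.filter (· < g * q) = I.biUnion (fun i => Ico (g * i) (g * i + g)) := by
    ext x
    simp only [hF, hI, mem_filter, mem_biUnion, mem_range]
    constructor
    · rintro ⟨⟨hxA, hx1, hx2⟩, hx3⟩
      have hm := mem_blk hg hx1
      unfold blk at hx2 hm
      rw [if_pos hx3] at hx2 hm
      exact ⟨x / g, ⟨Nat.div_lt_of_lt_mul hx3, hx2⟩, hm⟩
    · rintro ⟨i, ⟨hi, hiA⟩, hxi⟩
      have hxi' := mem_Ico.mp hxi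
      have h4 : g * i + g ≤ g * q := by
        have : g * (i + 1) ≤ g * q := Nat.mul_le_mul_left _ hi
        linarith [this, Nat.mul_add g i 1]
      have hdiv : x / g = i := by
        apply Nat.div_eq_of_lt_le
        · rw [mul_comm]; exact hxi'.1
        · have : (i + 1) * g = g * i + g := by ring
          rw [this]; exact hxi'.2
      have hxq : x < g * q := by omega
      refine ⟨⟨hiA hxi, by omega, ?_⟩, hxq⟩
      unfold blk
      rw [if_pos hxq, hdiv]
      exact hiA
  have h2 : (F.filter (· < g * q)).card = g * I.card := by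
    rw [h1, card_biUnion]
    · simp [mul_comm]
    · intro i _ j _ hij
      simp only [Function.onFun]
      rw [disjoint_left]
      intro x hx hy
      have hx' := mem_Ico.mp hx
      have hy' := mem_Ico.mp hy
      apply hij
      have e1 : x / g = i := by
        apply Nat.div_eq_of_lt_le
        · rw [mul_comm]; exact hx'.1
        · have : (i + 1) * g = g * i + g := by ring
          rw [this]; exact hx'.2
      have e2 : x / g = j := by
        apply Nat.div_eq_of_lt_le
        · rw [mul_comm]; exact hy'.1
        · have : (j + 1) * g = g * j + g := by ring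
          rw [this]; exact hy'.2
      rw [← e1, ← e2]
  have h3 : ∃ j : ℕ, j ≤ 1 ∧ (F.filter (¬ · < g * q)).card = e * j := by
    by_cases hE : Ico (g * q) (g * q + e) ⊆ A
    · refine ⟨1, le_refl 1, ?_⟩
      have : F.filter (¬ · < g * q) = Ico (g * q) (g * q + e) := by
        ext x
        simp only [hF, mem_filter, mem_Ico]
        constructor
        · rintro ⟨⟨_, h5, _⟩, h6⟩; omega
        · rintro ⟨h5, h6⟩
          refine ⟨⟨hE (mem_Ico.mpr ⟨h5, h6⟩), h6, ?_⟩, by omega⟩
          unfold blk
          rw [if_neg (by omega)]; exact hE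
      rw [this]; simp
    · refine ⟨0, by omega, ?_⟩
      have : F.filter (¬ · < g * q) = ∅ := by
        ext x
        simp only [hF, mem_filter, notMem_empty, iff_false]
        rintro ⟨⟨_, h5, h7⟩, h6⟩
        unfold blk at h7
        rw [if_neg h6] at h7
        exact hE h7
      rw [this]; simp
  obtain ⟨j, hj, h4⟩ := h3
  exact ⟨I.card, j, hj, by omega⟩

/-! sliding quadruples -/
def tgt (e : Finset ℕ) : Finset ℕ := {(e.sum id - 3) / 2 + 1, (e.sum id - 3) / 2 + 2}

theorem tgt_pair (i : ℕ) : tgt {i, i + 3} = {i + 1, i + 2} := by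
  have h : ({i, i + 3} : Finset ℕ).sum id = 2 * i + 3 := by
    rw [sum_pair (by omega)]; simp only [id]; omega
  unfold tgt
  rw [h]
  have : (2 * i + 3 - 3) / 2 = i := by omega
  rw [this]

def lng (n : ℕ) : Finset (Finset ℕ) := (range (n - 2)).image (fun i => ({i, i + 3} : Finset ℕ))

def k2 (n : ℕ) (e : Finset ℕ) : Finset ℕ := if e ∈ lng n then tgt e else e

def k1 (s x : ℕ) : Finset ℕ := if x < s then {x} else {0}

def win (n : ℕ) (A : Finset ℕ) : Finset ℕ := (range (n - 2)).filter (fun i => Icc i (i + 3) ⊆ A)

theorem pair_inj {i j a b : ℕ} (h : ({i, i + a + 1} : Finset ℕ) = {j, j + b + 1}) : i = j ∧ a = b := by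
  have h1 : i ∈ ({j, j + b + 1} : Finset ℕ) := by rw [← h]; simp
  have h2 : i + a + 1 ∈ ({j, j + b + 1} : Finset ℕ) := by rw [← h]; simp
  have h3 : j ∈ ({i, i + a + 1} : Finset ℕ) := by rw [h]; simp
  have h4 : j + b + 1 ∈ ({i, i + a + 1} : Finset ℕ) := by rw [h]; simp
  simp only [mem_insert, mem_singleton] at h1 h2 h3 h4
  omega

theorem card_k2 (n : ℕ) (e : Finset ℕ) (he : e.card = 2) : (k2 n e).card = 2 := by
  unfold k2
  split_ifs
  · unfold tgt
    exact card_pair (by omega)
  · exact he

theorem k2_count (n : ℕ) (A : Finset ℕ) :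
    ((A.powersetCard 2).image (k2 n)).card + (win n A).card = A.card.choose 2 := by
  classical
  set P := A.powersetCard 2 with hP
  set R : Finset (Finset ℕ) := (win n A).image (fun i => ({i, i + 3} : Finset ℕ)) with hR
  have hRc : R.card = (win n A).card := by
    rw [hR]
    apply card_image_of_injective
    intro i j hij
    exact (pair_inj (a := 2) (b := 2) hij).1
  have hRP : R ⊆ P := by
    intro e he
    obtain ⟨i, hi, rfl⟩ := mem_image.mp he
    have h2 := (mem_filter.mp hi).2
    refine mem_powersetCard.mpr ⟨?_, card_pair (by omega)⟩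
    intro x hx
    apply h2
    simp only [mem_insert, mem_singleton] at hx
    rw [mem_Icc]
    omega
  have hshort : ∀ i, ({i + 1, i + 2} : Finset ℕ) ∉ lng n := by
    intro i hi
    obtain ⟨j, -, hj⟩ := mem_image.mp hi
    have := (pair_inj (a := 2) (b := 0) (i := j) (j := i + 1) hj).2
    omega
  have h := count_gen (∅ : Finset (Finset ℕ)) P R (k2 n) hRP ?_ ?_ ?_
  · rw [empty_union, card_empty, hRc, hP, card_powersetCard] at h
    rw [hP]
    omega
  · intro e he
    obtain ⟨i, hi, rfl⟩ := mem_image.mp he
    obtain ⟨hi1, hi2⟩ := mem_filter.mp hi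
    have h1 : ({i, i + 3} : Finset ℕ) ∈ lng n := mem_image.mpr ⟨i, hi1, rfl⟩
    apply mem_union_right
    refine mem_image.mpr ⟨{i + 1, i + 2}, mem_sdiff.mpr ⟨?_, ?_⟩, ?_⟩
    · refine mem_powersetCard.mpr ⟨?_, card_pair (by omega)⟩
      intro x hx
      apply hi2
      simp only [mem_insert, mem_singleton] at hx
      rw [mem_Icc]
      omega
    · intro hh
      obtain ⟨j, hj, hj2⟩ := mem_image.mp hh
      have := (pair_inj (a := 2) (b := 0) (i := j) (j := i + 1) hj2).2
      omega
    · rw [k2, if_neg (hshort i), k2, if_pos h1, tgt_pair]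
  · intro x _; exact notMem_empty _
  · intro e he e' he' hee
    obtain ⟨he1, he2⟩ := mem_sdiff.mp (mem_coe.mp he)
    obtain ⟨he1', he2'⟩ := mem_sdiff.mp (mem_coe.mp he')
    have main : ∀ e ∈ P, e ∉ R → e ∈ lng n → ∀ e' ∈ P, e' ∉ R → k2 n e = k2 n e' → e = e' := by
      intro e he1 he2 hl e' he1' he2' hee
      obtain ⟨i, hi, rfl⟩ := mem_image.mp hl
      have h1 : k2 n {i, i + 3} = {i + 1, i + 2} := by rw [k2, if_pos hl, tgt_pair]
      by_cases hl' : e' ∈ lng n
      · obtain ⟨j, hj, rfl⟩ := mem_image.mp hl'
        have h2 : k2 n {j, j + 3} = {j + 1, j + 2} := by rw [k2, if_pos hl', tgt_pair]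
        rw [h1, h2] at hee
        have := (pair_inj (a := 0) (b := 0) (i := i + 1) (j := j + 1) hee).1
        have : i = j := by omega
        rw [this]
      · exfalso
        have h2 : k2 n e' = e' := by rw [k2, if_neg hl']
        rw [h1, h2] at hee
        apply he2
        refine mem_image.mpr ⟨i, mem_filter.mpr ⟨hi, ?_⟩, rfl⟩
        have h3 := (mem_powersetCard.mp he1).1
        have h4 := (mem_powersetCard.mp he1').1
        rw [← hee] at h4
        intro x hx
        rw [mem_Icc] at hx
        have h5 : x = i ∨ x = i + 3 ∨ x = i + 1 ∨ x = i + 2 := by omega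
        rcases h5 with rfl | rfl | rfl | rfl
        · exact h3 (by simp)
        · exact h3 (by simp)
        · exact h4 (by simp)
        · exact h4 (by simp)
    by_cases hl : e ∈ lng n
    · exact main e he1 he2 hl e' he1' he2' hee
    · by_cases hl' : e' ∈ lng n
      · exact (main e' he1' he2' hl' e he1 he2 hee.symm).symm
      · rw [k2, if_neg hl, k2, if_neg hl'] at hee
        exact hee

theorem seen_count (n s : ℕ) (A : Finset ℕ) :
    (seen (k1 s) (k2 n) A).card + (win n A).card = 1 + A.card.choose 2 + (A.image (k1 s)).card := by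
  have h1 : ∀ y ∈ (A.powersetCard 2).image (k2 n), y.card = 2 := by
    intro y hy
    obtain ⟨e, he, rfl⟩ := mem_image.mp hy
    exact card_k2 n e (mem_powersetCard.mp he).2
  have h2 : ∀ y ∈ A.image (k1 s), y.card = 1 := by
    intro y hy
    obtain ⟨x, -, rfl⟩ := mem_image.mp hy
    unfold k1
    split_ifs <;> simp
  unfold seen
  rw [card_insert_of_notMem, card_union_of_disjoint]
  · have := k2_count n A
    omega
  · rw [disjoint_left]
    intro y hy hy'
    have := h1 y hy
    have := h2 y hy'
    omega
  · intro hh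
    rcases mem_union.mp hh with hh | hh
    · have := h1 _ hh; simp at this
    · have := h2 _ hh; simp at this

theorem win_bound (n s : ℕ) (hs1 : 1 ≤ s) (hs : s + 2 ≤ n) (A : Finset ℕ) (hA : A.card = n) :
    (win n A).card + s + 1 ≤ (n - 2) + (A.image (k1 s)).card := by
  classical
  set Y := (Ico 1 s).filter (· ∉ A) with hY
  set Y' := (Ico 1 s).filter (· ∈ A) with hY'
  set X := (range (n - 2)).filter (fun i => ¬ Icc i (i + 3) ⊆ A) with hX
  have e1 : (win n A).card + X.card = n - 2 := by
    have := card_filter_add_card_filter_not (s := range (n - 2)) (fun i => Icc i (i + 3) ⊆ A)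
    rw [card_range] at this
    exact this
  have e2 : Y'.card + Y.card = s - 1 := by
    have := card_filter_add_card_filter_not (s := Ico 1 s) (fun x => x ∈ A)
    rw [Nat.card_Ico] at this
    exact this
  have e3 : Y'.card + 1 ≤ (A.image (k1 s)).card := by
    have hsub : insert {0} (Y'.image (fun x => ({x} : Finset ℕ))) ⊆ A.image (k1 s) := by
      intro y hy
      rcases mem_insert.mp hy with rfl | hy
      · -- some vertex of A outside [1,s)
        have : ∃ x ∈ A, x ∉ Ico 1 s := by
          by_contra hc
          push Not at hc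
          have h3 : A ⊆ Ico 1 s := hc
          have := card_le_card h3
          rw [Nat.card_Ico] at this
          omega
        obtain ⟨x, hx, hx2⟩ := this
        refine mem_image.mpr ⟨x, hx, ?_⟩
        rw [mem_Ico] at hx2
        unfold k1
        split_ifs with h4
        · have : x = 0 := by omega
          rw [this]
        · rfl
      · obtain ⟨x, hx, rfl⟩ := mem_image.mp hy
        obtain ⟨hx1, hx2⟩ := mem_filter.mp hx
        rw [mem_Ico] at hx1
        refine mem_image.mpr ⟨x, hx2, ?_⟩
        unfold k1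
        rw [if_pos hx1.2]
    have h5 := card_le_card hsub
    rw [card_insert_of_notMem, card_image_of_injective] at h5
    · exact h5
    · intro a b hab; simpa using hab
    · intro hh
      obtain ⟨x, hx, hx0⟩ := mem_image.mp hh
      have h6 : x = 0 := by simpa using hx0
      have := (mem_filter.mp hx).1
      rw [mem_Ico] at this
      omega
  have e4 : Y.card + 1 ≤ X.card := by
    have hne : (range (n + 1) \ A).Nonempty := by
      rw [← card_pos]
      have := le_card_sdiff A (range (n + 1))
      rw [card_range] at this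
      omega
    set v := (range (n + 1) \ A).max' hne with hv
    have hvm : v ∈ range (n + 1) \ A := max'_mem _ _
    have hmax : ∀ x ∈ range (n + 1) \ A, x ≤ v := fun x hx => le_max' _ _ hx
    obtain ⟨hvr, hvA⟩ := mem_sdiff.mp hvm
    rw [mem_range] at hvr
    have hsub : insert (min v (n - 3)) (Y.image (fun x => x - 1)) ⊆ X := by
      intro i hi
      rcases mem_insert.mp hi with rfl | hi
      · refine mem_filter.mpr ⟨mem_range.mpr (by omega), fun hh => hvA (hh (mem_Icc.mpr (by omega)))⟩
      · obtain ⟨x, hx, rfl⟩ := mem_image.mp hi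
        obtain ⟨hx1, hx2⟩ := mem_filter.mp hx
        rw [mem_Ico] at hx1
        refine mem_filter.mpr ⟨mem_range.mpr (by omega), fun hh => hx2 (hh (mem_Icc.mpr (by omega)))⟩
    have h5 := card_le_card hsub
    rw [card_insert_of_notMem, card_image_of_injOn] at h5
    · exact h5
    · intro a ha b hb hab
      have ha1 := (mem_filter.mp (mem_coe.mp ha)).1
      have hb1 := (mem_filter.mp (mem_coe.mp hb)).1
      rw [mem_Ico] at ha1 hb1
      simp only at hab
      omega
    · intro hh
      obtain ⟨x, hx, hx0⟩ := mem_image.mp hh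
      obtain ⟨hx1, hx2⟩ := mem_filter.mp hx
      rw [mem_Ico] at hx1
      have h6 := hmax x (mem_sdiff.mpr ⟨mem_range.mpr (by omega), hx2⟩)
      omega
  omega

theorem diag_case (c m M n δ : ℕ) (hM : n + 1 ≤ M) (hδ : δ + 3 ≤ n)
    (hc : c + δ = M.choose 2 + 1) (hm : m + δ = n.choose 2 + 1) : ¬ PHolds c m := by
  obtain ⟨s, hs⟩ : ∃ s, s + δ + 2 = n := ⟨n - 2 - δ, by omega⟩
  have h5 := choose_two_succ (n - 1)
  rw [show n - 1 + 1 = n by omega] at h5
  have h6 := choose_two_succ n
  have hwin : ∀ A, (win n A).card ≤ n - 2 := by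
    intro A
    have := card_filter_le (range (n - 2)) (fun i => Icc i (i + 3) ⊆ A)
    rwa [card_range] at this
  have himg : ∀ A : Finset ℕ, (A.image (k1 s)).card ≤ s := by
    intro A
    have hsub : A.image (k1 s) ⊆ (range s).image (fun x => ({x} : Finset ℕ)) := by
      intro y hy
      obtain ⟨x, -, rfl⟩ := mem_image.mp hy
      unfold k1
      split_ifs with h
      · exact mem_image.mpr ⟨x, mem_range.mpr h, rfl⟩
      · exact mem_image.mpr ⟨0, mem_range.mpr (by omega), rfl⟩
    exact (card_le_card hsub).trans (card_image_le.trans (by rw [card_range]))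
  apply key M c m (k1 s) (k2 n)
  · have h1 := seen_count n s (range M)
    have h2 : (win n (range M)).card = n - 2 := by
      unfold win
      rw [filter_true_of_mem, card_range]
      intro i hi x hx
      rw [mem_range] at hi ⊢
      rw [mem_Icc] at hx
      omega
    have h3 : ((range M).image (k1 s)).card = s := by
      apply le_antisymm (himg _)
      have hsub : (range s).image (fun x => ({x} : Finset ℕ)) ⊆ (range M).image (k1 s) := by
        intro y hy
        obtain ⟨x, hx, rfl⟩ := mem_image.mp hy
        rw [mem_range] at hx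
        exact mem_image.mpr ⟨x, mem_range.mpr (by omega), by unfold k1; rw [if_pos hx]⟩
      have h4 := card_le_card hsub
      rw [card_image_of_injective, card_range] at h4
      · exact h4
      · intro a b hab; simpa using hab
    rw [card_range, h2, h3] at h1
    omega
  · intro A _ hcard
    have h1 := seen_count n s A
    have h2 := himg A
    have h3 := hwin A
    rcases lt_trichotomy A.card n with h | h | h
    · have h4 := choose_two_mono (show A.card ≤ n - 1 by omega)
      omega
    · have h4 := win_bound n s (by omega) (by omega) A h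
      rw [h] at h1
      omega
    · have h4 := choose_two_mono (show n + 1 ≤ A.card by omega)
      omega

/-! root classes -/
theorem seen_mod (Q : ℕ) (A : Finset ℕ) :
    (seen (fun x => {x % Q}) id A).card = 1 + A.card.choose 2 + (A.image (fun x => x % Q)).card := by
  have hi : (A.image (fun x => ({x % Q} : Finset ℕ))).card = (A.image (fun x => x % Q)).card := by
    have : A.image (fun x => ({x % Q} : Finset ℕ)) = (A.image (fun x => x % Q)).image (fun y => {y}) := by
      rw [image_image]; rfl
    rw [this, card_image_of_injective]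
    intro a b hab; simpa using hab
  unfold seen
  rw [card_insert_of_notMem, card_union_of_disjoint, image_id, card_powersetCard, hi]
  · omega
  · rw [disjoint_left]
    intro y hy hy'
    rw [image_id] at hy
    have h1 := (mem_powersetCard.mp hy).2
    obtain ⟨x, -, rfl⟩ := mem_image.mp hy'
    simp at h1
  · intro hh
    rcases mem_union.mp hh with hh | hh
    · rw [image_id] at hh
      have := (mem_powersetCard.mp hh).2
      simp at this
    · obtain ⟨x, -, hx⟩ := mem_image.mp hh
      simp at hx

theorem class_case (c m M n r δ : ℕ) (hM : r + 2 ≤ M) (hc : c + r = M.choose 2 + 1)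
    (hn : δ + 2 ≤ n) (hm : m + δ = n.choose 2 + 1)
    (h : (n - 1 - δ) * ((M - 1) ⌈/⌉ (M - 1 - r)) < n - 1) : ¬ PHolds c m := by
  obtain ⟨N0, rfl⟩ : ∃ N0, M = N0 + 1 := ⟨M - 1, by omega⟩
  obtain ⟨Q, hQ⟩ : ∃ Q, Q + r = N0 := ⟨N0 - r, by omega⟩
  have hQ0 : 0 < Q := by omega
  rw [show N0 + 1 - 1 - r = Q by omega, show N0 + 1 - 1 = N0 by omega] at h
  have h5 := choose_two_succ (n - 1)
  rw [show n - 1 + 1 = n by omega] at h5
  have h6 := choose_two_succ (n - 2)
  rw [show n - 2 + 1 = n - 1 by omega] at h6
  rw [choose_two_succ] at hc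
  apply key N0 c m (fun x => {x % Q}) id
  · rw [seen_mod, card_range]
    have : (range N0).image (fun x => x % Q) = range Q := by
      ext y
      simp only [mem_image, mem_range]
      constructor
      · rintro ⟨x, _, rfl⟩; exact Nat.mod_lt _ hQ0
      · intro hy; exact ⟨y, by omega, Nat.mod_eq_of_lt hy⟩
    rw [this, card_range]
    omega
  · intro A hA hcard
    rw [seen_mod] at hcard
    have h1 : (A.image (fun x => x % Q)).card ≤ A.card := card_image_le
    rcases lt_trichotomy (A.card + 1) n with h3 | h3 | h3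
    · have h4 := choose_two_mono (show A.card ≤ n - 2 by omega)
      omega
    · have h7 : A.card ≤ (N0 ⌈/⌉ Q) * (A.image (fun x => x % Q)).card := by
        apply card_le_mul_card_image
        intro a _
        have h8 : (A.filter (fun x => x % Q = a)).card ≤ (range (N0 ⌈/⌉ Q)).card := by
          apply card_le_card_of_injOn (fun x => x / Q)
          · intro x hx
            have hx1 := mem_range.mp (hA (mem_filter.mp (mem_coe.mp hx)).1)
            have h9 : N0 ≤ Q * (N0 ⌈/⌉ Q) := by
              have := le_smul_ceilDiv (α := ℕ) (β := ℕ) (a := Q) (b := N0) hQ0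
              simpa using this
            exact mem_coe.mpr (mem_range.mpr (Nat.div_lt_of_lt_mul (lt_of_lt_of_le hx1 h9)))
          · intro x hx y hy hxy
            have hx1 := (mem_filter.mp (mem_coe.mp hx)).2
            have hy1 := (mem_filter.mp (mem_coe.mp hy)).2
            simp only at hxy
            have e1 := Nat.div_add_mod x Q
            have e2 := Nat.div_add_mod y Q
            rw [hxy, hx1] at e1
            rw [hy1] at e2
            omega
        simpa using h8
      have h8 : (A.image (fun x => x % Q)).card = n - 1 - δ := by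
        have : A.card = n - 1 := by omega
        rw [this] at hcard
        omega
      rw [h8, mul_comm] at h7
      omega
    · have h4 := choose_two_mono (show n ≤ A.card by omega)
      have h9 : 0 < (A.image (fun x => x % Q)).card := by
        rw [card_pos, image_nonempty, ← card_pos]; omega
      omega

/-! assembly -/
theorem star_case (c m M n r δ : ℕ) (hM : r + 2 ≤ M) (hc : c + r = M.choose 2 + 1)
    (hn : δ + 2 ≤ n) (hm : m + δ = n.choose 2 + 1) (hδ : 1 ≤ δ)
    (h : r < δ ∨ δ + M < r + n) : ¬ PHolds c m := by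
  obtain ⟨N0, rfl⟩ : ∃ N0, M = N0 + 1 := ⟨M - 1, by omega⟩
  refine opt1 (hub_star N0 r) c m n r δ ?_ hc hm hδ hn ?_
  · have : (range N0).filter (· < r) = range r := by
      ext x
      simp only [mem_filter, mem_range]
      omega
    rw [this, card_range]
  · intro A hA hcard
    have h1 : (A.filter (· < r)).card + (A.filter (¬ · < r)).card = A.card :=
      card_filter_add_card_filter_not _
    have h2 : (A.filter (· < r)).card ≤ r := by
      have : A.filter (· < r) ⊆ range r := by
        intro x hx
        exact mem_range.mpr (mem_filter.mp hx).2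
      simpa using card_le_card this
    have h3 : (A.filter (¬ · < r)).card ≤ N0 - r := by
      have : A.filter (¬ · < r) ⊆ Ico r N0 := by
        intro x hx
        obtain ⟨hx1, hx2⟩ := mem_filter.mp hx
        have := mem_range.mp (hA hx1)
        exact mem_Ico.mpr ⟨by omega, this⟩
      simpa using card_le_card this
    omega

theorem window_case (c m M n r δ : ℕ) (hM : r + 2 ≤ M) (hc : c + r = M.choose 2 + 1)
    (hn : δ + 2 = n) (hm : m + δ = n.choose 2 + 1) (hδ : 1 ≤ δ) (hMn : n + 1 ≤ M) : ¬ PHolds c m := by
  obtain ⟨N0, rfl⟩ : ∃ N0, M = N0 + 1 := ⟨M - 1, by omega⟩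
  refine opt1 (hub_wnd N0 r (by omega) (by omega)) c m n r δ ?_ hc hm hδ (by omega) ?_
  · have : (range N0).filter (fun x => x < r ∧ wnd N0 x ⊆ range N0) = range r := by
      ext x
      simp only [mem_filter, mem_range]
      constructor
      · rintro ⟨_, h, _⟩; exact h
      · intro h
        refine ⟨by omega, h, ?_⟩
        intro y hy
        simp only [wnd, mem_insert, mem_singleton] at hy
        rw [mem_range]
        rcases hy with rfl | rfl
        · omega
        · split_ifs <;> omega
    rw [this, card_range]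
  · intro A hA hcard
    have := wnd_count N0 r A hA (by omega) (by omega)
    omega

theorem petal_opt1 (g q e c m M n r δ : ℕ) (hg1 : 2 ≤ g) (hg2 : g ≤ 3) (he : e ≤ 3)
    (hR : g * q + e = r) (hM : r + 2 ≤ M) (hc : c + r = M.choose 2 + 1)
    (hn : δ + 2 ≤ n) (hm : m + δ = n.choose 2 + 1) (hδ : 1 ≤ δ)
    (hD : ∀ i j : ℕ, j ≤ 1 → g * i + e * j ≠ δ) : ¬ PHolds c m := by
  obtain ⟨N0, rfl⟩ : ∃ N0, M = N0 + 1 := ⟨M - 1, by omega⟩
  refine opt1 (hub_pet N0 g q e hg1 hg2 he) c m n r δ ?_ hc hm hδ hn ?_
  · rw [← hR]
    exact pet_total N0 g q e (by omega) (by omega)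
  · intro A _ _
    obtain ⟨i, j, hj, h⟩ := pet_count g q e (by omega) A
    rw [h]
    exact hD i j hj

theorem petal_opt2 (g q e c m M n r δ : ℕ) (hg1 : 2 ≤ g) (hg2 : g ≤ 3) (he : e ≤ 3)
    (hR : g * q + e = r + 1) (hM : r + 2 ≤ M) (hc : c + r = M.choose 2 + 1)
    (hn : δ + 3 ≤ n) (hm : m + δ = n.choose 2 + 1)
    (hD : ∀ i j : ℕ, j ≤ 1 → g * i + e * j ≠ δ + 1) : ¬ PHolds c m := by
  obtain ⟨N0, rfl⟩ : ∃ N0, M = N0 + 1 := ⟨M - 1, by omega⟩
  refine opt2 (hub_pet N0 g q e hg1 hg2 he) c m n r δ ?_ hc hm hn ?_
  · rw [← hR]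
    exact pet_total N0 g q e (by omega) (by omega)
  · intro A _ _
    obtain ⟨i, j, hj, h⟩ := pet_count g q e (by omega) A
    rw [h]
    exact hD i j hj

theorem mod_case (g c m M n r δ : ℕ) (hg1 : 2 ≤ g) (hg2 : g ≤ 3) (hM : r + 2 ≤ M)
    (hc : c + r = M.choose 2 + 1) (hn : δ + 3 ≤ n) (hm : m + δ = n.choose 2 + 1)
    (h : r % g ≠ δ % g) : ¬ PHolds c m := by
  by_cases h0 : δ % g = 0
  · have hd := Nat.div_add_mod (r + 1) g
    have hlt := Nat.mod_lt (r + 1) (show 0 < g by omega)
    refine petal_opt2 g ((r + 1) / g) ((r + 1) % g) c m M n r δ hg1 hg2 (by omega) hd hM hc hn hm ?_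
    intro i j hj hij
    have h1 : (δ + 1) % g = ((r + 1) % g * j) % g := by
      rw [← hij, Nat.mul_add_mod]
    have hj' : j = 0 ∨ j = 1 := by omega
    have hg : g = 2 ∨ g = 3 := by omega
    rcases hj' with rfl | rfl <;> rcases hg with rfl | rfl <;> omega
  · have hd := Nat.div_add_mod r g
    have hlt := Nat.mod_lt r (show 0 < g by omega)
    refine petal_opt1 g (r / g) (r % g) c m M n r δ hg1 hg2 (by omega) hd hM hc (by omega) hm ?_ ?_
    · rcases Nat.eq_zero_or_pos δ with h3 | h3
      · rw [h3] at h0; simp at h0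
      · exact h3
    intro i j hj hij
    have h1 : δ % g = (r % g * j) % g := by
      conv_lhs => rw [← hij]
      rw [Nat.mul_add_mod]
    have hj' : j = 0 ∨ j = 1 := by omega
    have hg : g = 2 ∨ g = 3 := by omega
    rcases hj' with rfl | rfl <;> rcases hg with rfl | rfl <;> omega

theorem small_case (c m M n r δ : ℕ) (hM : r + 2 ≤ M)
    (hc : c + r = M.choose 2 + 1) (hn : δ + 3 ≤ n) (hm : m + δ = n.choose 2 + 1)
    (hδ : δ ≤ 1) (h : δ < r) : ¬ PHolds c m := by
  rcases Nat.eq_zero_or_pos δ with h0 | h0
  · subst h0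
    rcases Nat.even_or_odd (r + 1) with ⟨q, hq⟩ | ⟨q, hq⟩
    · refine petal_opt2 2 q 0 c m M n r 0 (le_refl _) (by omega) (by omega) (by omega) hM hc hn hm ?_
      intro i j _ hij; omega
    · refine petal_opt2 2 (q - 1) 3 c m M n r 0 (le_refl _) (by omega) (by omega) (by omega) hM hc hn hm ?_
      intro i j _ hij; omega
  · have h1 : δ = 1 := by omega
    subst h1
    rcases Nat.even_or_odd r with ⟨q, hq⟩ | ⟨q, hq⟩
    · refine petal_opt1 2 q 0 c m M n r 1 (le_refl _) (by omega) (by omega) (by omega) hM hc (by omega) hm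
        (le_refl _) ?_
      intro i j _ hij; omega
    · refine petal_opt1 2 (q - 1) 3 c m M n r 1 (le_refl _) (by omega) (by omega) (by omega) hM hc (by omega) hm
        (le_refl _) ?_
      intro i j _ hij; omega

theorem main_thm (c m M n r δ : ℕ) (hm3 : 3 ≤ m) (hmc : m < c)
    (hM : r + 2 ≤ M) (hc : c + r = M.choose 2 + 1)
    (hn : δ + 2 ≤ n) (hm : m + δ = n.choose 2 + 1) (hP : PHolds c m) :
    (∃ t : ℕ, 1 ≤ t ∧ r = δ + 6 * t ∧ n + 6 * t ≤ M) ∧ 2 ≤ δ ∧ δ + 3 ≤ n ∧
      n - 1 ≤ (n - 1 - δ) * ((M - 1) ⌈/⌉ (M - 1 - r)) := by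
  by_cases hS : (n - 1 - δ) * ((M - 1) ⌈/⌉ (M - 1 - r)) < n - 1
  · exact absurd hP (class_case c m M n r δ hM hc hn hm hS)
  have hS' := not_lt.mp hS
  have h5 := choose_two_succ (n - 1)
  rw [show n - 1 + 1 = n by omega] at h5
  have hnM : n ≤ M := by
    by_contra hcon
    have := choose_two_mono (show M ≤ n - 1 by omega)
    omega
  have hn3 : 3 ≤ n := by
    by_contra hcon
    have h2 : n = 2 := by omega
    subst h2
    simp at hm
    omega
  by_cases hA : r < δ
  · exact absurd hP (star_case c m M n r δ hM hc hn hm (by omega) (Or.inl hA))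
  have hMn : n + 1 ≤ M := by
    rcases Nat.lt_or_ge n M with h | h
    · exact h
    · exfalso
      have : M = n := by omega
      subst this
      omega
  by_cases hC : δ + 2 = n
  · exact absurd hP (window_case c m M n r δ hM hc hC hm (by omega) hMn)
  have hn' : δ + 3 ≤ n := by omega
  by_cases hD : r = δ
  · subst hD
    exact absurd hP (diag_case c m M n r hMn hn' hc hm)
  by_cases hE : δ ≤ 1
  · exact absurd hP (small_case c m M n r δ hM hc hn' hm hE (by omega))
  by_cases hB : δ + M < r + n
  · exact absurd hP (star_case c m M n r δ hM hc hn hm (by omega) (Or.inr hB))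
  by_cases h2 : r % 2 = δ % 2
  · by_cases h3 : r % 3 = δ % 3
    · refine ⟨⟨(r - δ) / 6, ?_, ?_, ?_⟩, by omega, hn', hS'⟩ <;> omega
    · exact absurd hP (mod_case 3 c m M n r δ (by omega) (by omega) hM hc hn' hm h3)
  · exact absurd hP (mod_case 2 c m M n r δ (by omega) (by omega) hM hc hn' hm h2)


/-- Every c at least 2 has the representation used in the main theorem. -/
theorem rep (c : ℕ) (hc : 2 ≤ c) : ∃ M r : ℕ, r + 2 ≤ M ∧ c + r = M.choose 2 + 1 := by
  induction c with
  | zero => omega
  | succ c ih =>
    rcases Nat.lt_or_ge c 2 with h | h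
    · refine ⟨2, 0, by omega, ?_⟩
      have : c = 1 := by omega
      subst this
      rfl
    · obtain ⟨M, r, hM, hr⟩ := ih h
      rcases Nat.eq_zero_or_pos r with h0 | h0
      · subst h0
        refine ⟨M + 1, M - 1, by omega, ?_⟩
        rw [choose_two_succ]
        omega
      · exact ⟨M, r - 1, by omega, by omega⟩

/-- In particular the conjecture holds for all pairs with at most 47 colours. -/
theorem small_pairs (c m : ℕ) (hm3 : 3 ≤ m) (hmc : m < c) (hc : c ≤ 47) : ¬ PHolds c m := by
  intro hP
  obtain ⟨M, r, hM, hr⟩ := rep c (by omega)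
  obtain ⟨n, δ, hn, hδ⟩ := rep m (by omega)
  obtain ⟨⟨t, ht, h1, h2⟩, h3, h4, -⟩ := main_thm c m M n r δ hm3 hmc hM hr hn hδ hP
  have h5 : (M - 1).choose 2 + (M - 1) = M.choose 2 := by
    have := choose_two_succ (M - 1)
    rw [show M - 1 + 1 = M by omega] at this
    omega
  have h6 := choose_two_mono (show 11 ≤ M by omega)
  have h7 : (11 : ℕ).choose 2 = 55 := by decide
  rcases Nat.lt_or_ge M 12 with h8 | h8
  · have h9 : M = 11 := by omega
    subst h9
    omega
  · have h9 := choose_two_mono (show 11 ≤ M - 1 by omega)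
    omega

/-- Write c - 1 = C(M,2) - r with 0 ≤ r ≤ M - 2 and m - 1 = C(n,2) - δ with 0 ≤ δ ≤ n - 2.
If 3 ≤ m < c and P(c,m) holds, then r - δ is a positive multiple of 6, it is at most M - n,
2 ≤ δ ≤ n - 3, and (n - 1 - δ) times the ceiling of (M - 1) / (M - 1 - r) is at least n - 1. -/
theorem result (c m M n r δ : ℕ) (hm3 : 3 ≤ m) (hmc : m < c)
    (hM : r + 2 ≤ M) (hc : c + r = M.choose 2 + 1)
    (hn : δ + 2 ≤ n) (hm : m + δ = n.choose 2 + 1) (hP : PHolds c m) :
    (∃ t : ℕ, 1 ≤ t ∧ r = δ + 6 * t ∧ n + 6 * t ≤ M) ∧ 2 ≤ δ ∧ δ + 3 ≤ n ∧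
      n - 1 ≤ (n - 1 - δ) * ((M - 1) ⌈/⌉ (M - 1 - r)) :=
  main_thm c m M n r δ hm3 hmc hM hc hn hm hP

end Pool.Agent.Results.MP_ea54b6_co.Mod6
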